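import Pool.Agent.H.MP_e616d8_an.B

set_option autoImplicit false
open MeasureTheory Filter Topology

namespace Pool.Agent.Results.MP_e616d8_an.Yes
open Pool.Agent.H.MP_e616d8_an

theorem result : ∃ (B : Type) (_ : NormedAddCommGroup B) (_ : NormedSpace ℂ B) (_ : CompleteSpace B)
    (T : B →L[ℂ] B),
    (∃ x : B, ∀ S : Set (WeakSpace ℂ B), IsSeqClosed S →
      toWeakSpace ℂ B '' {y | ∃ (c : ℂ) (n : ℕ), y = c • (T ^ n) x} ⊆ S → S = Set.univ) ∧
    ∀ x : B, seqClosure (toWeakSpace ℂ B '' {y | ∃ (c : ℂ) (n : ℕ), y = c • (T ^ n) x}) ≠ Set.univ := by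
  have : Nonempty {u : E // ∀ᵐ ω ∂μ, ‖u ω‖ = 1} := exr.elim fun r h =>
    ⟨r 0, (h.2 0).mono fun ω e => by rcases e with e | e <;> simp [e]⟩
  obtain ⟨u, hu⟩ := TopologicalSpace.exists_dense_seq {u : E // ∀ᵐ ω ∂μ, ‖u ω‖ = 1}
  obtain ⟨h, m, h1, H⟩ := exh (u := fun k => (u k.unpair.1).1) fun k => (Lp.stronglyMeasurable _).measurable
  obtain ⟨T, hT⟩ := exM m (.of_forall fun ω => (h1 ω).le)
  refine ⟨E, inferInstance, inferInstance, inferInstance, T, ⟨Lp.const 2 μ 1, fun S hS hO => all hS fun c v hv => ?_⟩,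
    fun x => not1 x ?_⟩
  · refine (hS.preimage (toWeakSpaceCLM ℂ E).continuous.seqContinuous).isClosed.closure_subset
      (map_mem_closure (f := fun y : E => c • y) (x := v) (t := toWeakSpaceCLM ℂ E ⁻¹' S) (s := Set.range fun n => (T ^ n) (Lp.const 2 μ 1)) (continuous_const_smul c)
        (Metric.mem_closure_iff.2 fun ε e => ?_) fun _ ⟨n, a⟩ => hO ⟨_, ⟨c, n, congrArg (c • ·) a.symm⟩, rfl⟩)
    obtain ⟨j, hj⟩ := Metric.denseRange_iff.1 hu ⟨v, hv⟩ _ (half_pos e)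
    obtain ⟨N, hN⟩ := exists_nat_gt (8 / ε)
    refine ⟨_, ⟨2 ^ (j.pair N) ^ 2, rfl⟩, (dist_triangle_right _ _ (u j).1).trans_lt ?_⟩
    have a : ‖(T ^ 2 ^ (j.pair N) ^ 2) (Lp.const 2 μ 1) - (u j).1‖ ≤ _ :=
      Lp.norm_le_of_ae_bound (C := 4 / 2 ^ j.pair N) (by positivity) (by
        filter_upwards [Lp.coeFn_sub ((T ^ 2 ^ (j.pair N) ^ 2) (Lp.const 2 μ 1)) (u j).1, (u j).2,
          pw hT (2 ^ (j.pair N) ^ 2) (Lp.const 2 μ 1), Lp.coeFn_const 2 μ (1 : ℂ)] with ω a b c d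
        rw [a, Pi.sub_apply, c, d]
        simpa using H (j.pair N) ω (by simpa using b))
    have b : (N : ℝ) ≤ 2 ^ j.pair N := by exact_mod_cast (Nat.right_le_pair j N).trans Nat.lt_two_pow_self.le
    have : (4 : ℝ) / 2 ^ j.pair N ≤ ε / 2 := by
      rw [div_lt_iff₀ e] at hN; rw [div_le_iff₀ (by positivity)]; nlinarith
    simp only [measureUnivNNReal, measure_univ, ENNReal.toNNReal_one, NNReal.coe_one, Real.one_rpow, one_mul,
      ← dist_eq_norm] at a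
    linarith [show dist v (u j).1 < ε / 2 from hj]
  · rintro _ ⟨c, n, rfl⟩
    refine ⟨‖c‖, norm_nonneg _, ?_⟩
    filter_upwards [Lp.coeFn_smul c ((T ^ n) x), pw hT n x] with ω a b
    rw [a, Pi.smul_apply, b]; simp [h1]

end Pool.Agent.Results.MP_e616d8_an.Yes
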